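import Pool.Agent.PolyTimeCL.CookLevin
import Pool.Agent.W_MP_7af251_lc.Poly

/-!
# Finding man-optimal weakly stable matchings with ties and incomplete lists is NP-hard
-/

set_option autoImplicit false

open Turing Computability

namespace Pool.Agent.Results.MP_7af251_lc.NPHard

open Pool.Agent.PolyTime Pool.Agent.W_MP_7af251_lc

/-- The search problem is NP-hard: every language `L` in NP reduces to it by a polynomial-time
computable map `f` from bit strings to instances (in which no man's list contains a tie) such that
`x ∈ L` iff `f x` has no man-optimal weakly stable matching, which is what any solver reports. -/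
theorem result :
    Function.Injective Inst.code ∧
    ∀ L : Set (List Bool), InNP L →
      ∃ f : List Bool → Inst,
        Nonempty (TM2ComputableInPolyTime (fun x : List Bool => x) Inst.code f) ∧
        (∀ x, (f x).WellFormed ∧ (f x).MenStrict) ∧
        (∀ x, x ∈ L ↔ ¬ ∃ M, (f x).ManOptimal M) ∧
        ∀ S : Inst → Option (Finset (ℕ × ℕ)), Solves S → ∀ x, x ∈ L ↔ S (f x) = none := by
  refine ⟨code_injective, fun L hL => ?_⟩
  obtain ⟨g, hg, hgL⟩ := cookLevin_nat hL
  have key : ∀ x, x ∈ L ↔ ¬ ∃ M, (inst (g x)).ManOptimal M := fun x => by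
    rw [hgL, sat_iff]
  refine ⟨fun x => inst (g x), ?_, fun x => ⟨inst_wellFormed, inst_menStrict⟩, key, ?_⟩
  · obtain ⟨h⟩ := PF.toTM2_raw (pf_inst hg)
    exact ⟨⟨h.toTM2ComputableAux, h.time, fun x => by
      rw [code_eq]
      exact h.outputsFun x⟩⟩
  · intro S hS x
    obtain ⟨h1, h2⟩ := hS (inst (g x)) inst_wellFormed
    rw [key]
    constructor
    · intro h
      cases hSx : S (inst (g x)) with
      | none => rfl
      | some M => exact absurd ⟨M, h1 M hSx⟩ h
    · exact h2

end Pool.Agent.Results.MP_7af251_lc.NPHard
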